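import Mathlib
import Pool.Agent.H24.Hlw2

set_option autoImplicit false

namespace Pool.Agent.Results.MP_7ad8d2_an.Full

/-- Maximum absolute row sum. -/
noncomputable def infNorm {n : ℕ} (A : Matrix (Fin n) (Fin n) ℝ) : ℝ := ⨆ i, ∑ j, |A i j|

/-- Diagonal dominance of row i. -/
def dom {n : ℕ} (J : Matrix (Fin n) (Fin n) ℝ) (i : Fin n) : ℝ :=
  J i i - ∑ j ∈ Finset.univ.erase i, J i j

/-- The class C_n(m, δ). -/
def InC {n : ℕ} (m δ : ℝ) (J : Matrix (Fin n) (Fin n) ℝ) : Prop :=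
  J.IsSymm ∧ (∀ i j, 0 < J i j) ∧ (∀ i j, i ≠ j → J i j ≤ m) ∧ ∀ i, 0 ≤ dom J i ∧ dom J i ≤ δ

/-- The matrix α I + m 1 1ᵀ. -/
def S (n : ℕ) (α m : ℝ) : Matrix (Fin n) (Fin n) ℝ :=
  α • (1 : Matrix (Fin n) (Fin n) ℝ) + Matrix.of fun _ _ => m

lemma S_inv (n : ℕ) (α m : ℝ) (h1 : α ≠ 0) (h2 : α + m * n ≠ 0) :
    (S n α m)⁻¹ = S n (1 / α) (-(m / (α * (α + m * n)))) := by
  apply Matrix.inv_eq_right_inv
  ext i j
  simp only [S, Matrix.mul_apply, Matrix.add_apply, Matrix.smul_apply, Matrix.of_apply,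
    Matrix.one_apply, smul_eq_mul, add_mul, mul_add, Finset.sum_add_distrib]
  by_cases h : i = j
  · subst h; simp; field_simp; ring
  · simp [h]; field_simp; ring

lemma S_norm (n : ℕ) (hn : 3 ≤ n) (α m : ℝ) (h1 : 0 < α) (h2 : 0 < m) :
    infNorm (S n α m)⁻¹ = (α + 2 * m * (n - 1)) / (α * (α + m * n)) := by
  have hn' : (3 : ℝ) ≤ n := by exact_mod_cast hn
  have h3 : 0 < α + m * n := by positivity
  haveI : Nonempty (Fin n) := ⟨⟨0, by omega⟩⟩
  rw [S_inv n α m h1.ne' h3.ne']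
  unfold infNorm
  have : ∀ i : Fin n, ∑ j, |S n (1 / α) (-(m / (α * (α + m * n)))) i j| =
      (α + 2 * m * (n - 1)) / (α * (α + m * n)) := by
    intro i
    rw [← Finset.add_sum_erase Finset.univ _ (Finset.mem_univ i)]
    have e1 : S n (1 / α) (-(m / (α * (α + m * n)))) i i =
        (α + m * (n - 1)) / (α * (α + m * n)) := by
      simp [S]; field_simp; ring
    have e2 : ∀ j ∈ Finset.univ.erase i, |S n (1 / α) (-(m / (α * (α + m * n)))) i j| =
        m / (α * (α + m * n)) := by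
      intro j hj
      have : i ≠ j := (Finset.ne_of_mem_erase hj).symm
      simp only [S, Matrix.add_apply, Matrix.smul_apply, Matrix.of_apply, Matrix.one_apply,
        if_neg this, smul_eq_mul, mul_zero, zero_add, abs_neg]
      exact abs_of_pos (by positivity)
    have h4 : 0 < m * ((n : ℝ) - 1) := mul_pos h2 (by linarith)
    rw [Finset.sum_congr rfl e2, e1, abs_of_pos (by positivity), Finset.sum_const,
      Finset.card_erase_of_mem (Finset.mem_univ i), Finset.card_univ, Fintype.card_fin,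
      nsmul_eq_mul, Nat.cast_sub (by omega), Nat.cast_one]
    field_simp; ring
  rw [funext this, ciSup_const]

theorem result (n : ℕ) (hn : 3 ≤ n) (m δ α : ℝ) (hm : 0 < m) (hδ : 0 ≤ δ)
    (hα : α = m * (n - 2) + δ) :
    infNorm (S n α m)⁻¹ = (α + 2 * m * (n - 1)) / (α * (α + m * n)) ∧
    ∀ J : Matrix (Fin n) (Fin n) ℝ, InC m δ J →
      infNorm (S n α m)⁻¹ ≤ infNorm J⁻¹ ∧ (infNorm J⁻¹ = infNorm (S n α m)⁻¹ ↔ J = S n α m) := by
  have hn' : (3 : ℝ) ≤ n := by exact_mod_cast hn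
  have hα0 : 0 < α := by
    have : 0 < m * ((n : ℝ) - 2) := mul_pos hm (by linarith)
    linarith
  have hS := S_norm n hn α m hα0 hm
  refine ⟨hS, fun J hJ => ?_⟩
  have hD : ∀ i, Pool.Agent.H24.Hlw2.Dm J i = dom J i := fun i => by
    unfold Pool.Agent.H24.Hlw2.Dm dom; rw [Pool.Agent.H24.Hlw2.Rw_eq]
  have hC : Pool.Agent.H24.Hlw2.Cl m δ J :=
    ⟨hJ.1, hJ.2.1, hJ.2.2.1, fun i => (hD i).symm ▸ (hJ.2.2.2 i).1,
      fun i => (hD i).symm ▸ (hJ.2.2.2 i).2⟩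
  have hM := Pool.Agent.H24.Hlw2.main hn hm hδ hC (infNorm J⁻¹)
    (fun i => le_ciSup (f := fun i => ∑ j, |J⁻¹ i j|) (Set.finite_range _).bddAbove i)
  have ht : Pool.Agent.H24.Hlw1.tn ((n : ℝ) - 3) m δ / Pool.Agent.H24.Hlw1.td ((n : ℝ) - 3) m δ =
      infNorm (S n α m)⁻¹ := by
    rw [hS, hα]
    unfold Pool.Agent.H24.Hlw1.tn Pool.Agent.H24.Hlw1.td Pool.Agent.H24.Hlw1.al
    congr 1 <;> ring
  rw [ht] at hM
  refine ⟨hM.1, fun e => ?_, fun e => by rw [e]⟩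
  obtain ⟨h1, h2⟩ := hM.2 e.symm
  ext i j
  by_cases hij : i = j
  · subst hij
    have h3 := h1 i
    rw [hD, dom, Finset.sum_congr rfl (fun j hj => h2 i j (Finset.ne_of_mem_erase hj).symm),
      Finset.sum_const, Finset.card_erase_of_mem (Finset.mem_univ i), Finset.card_univ,
      Fintype.card_fin, nsmul_eq_mul, Nat.cast_sub (by omega), Nat.cast_one] at h3
    simp [S]; linarith
  · simp [S, hij, h2 i j hij]

end Pool.Agent.Results.MP_7ad8d2_an.Full
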